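import Pool.Agent.J4H14.GP.Ftb
import Pool.Agent.Y773.HK.Hf2

/-!
# Project GP, part FEB: the functional equation of the theta series of an ideal
-/

set_option autoImplicit false
set_option linter.unusedSectionVars false

open NumberField Complex Filter Topology MeasureTheory Set
open NumberField.Units NumberField.Units.dirichletUnitTheorem
open Pool.Agent.Y773

namespace Pool.Agent.J4H14.GP

open Pool.Agent.J4H78.GP (ind)

variable {K : Type} [Field K] [NumberField K] [IsTotallyReal K]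

lemma norm_ind_le (𝔟 : Ideal (𝓞 K)) (x : 𝓞 K) : ‖ind 𝔟 x‖ ≤ 1 := by
  by_cases hx : x ∈ 𝔟
  · rw [ind_mem hx, norm_one]
  · rw [ind_notMem hx, norm_zero]
    exact zero_le_one

lemma eqv_ind (𝔟 : Ideal (𝓞 K)) : Eqv (fun _ => 0) (ind 𝔟) := by
  intro u x
  have h1 : sg (fun _ : InfinitePlace K => 0) ((u : 𝓞 K) : K) = 1 := by
    unfold sg
    exact Finset.prod_eq_one fun w _ => pow_zero _
  rw [h1, one_mul]
  by_cases hx : x ∈ 𝔟
  · rw [ind_mem hx, ind_mem (𝔟.mul_mem_left _ hx)]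
  · rw [ind_notMem hx, ind_notMem]
    intro h2
    apply hx
    have h3 := 𝔟.mul_mem_left ((u⁻¹ : (𝓞 K)ˣ) : 𝓞 K) h2
    rwa [← mul_assoc, Units.inv_mul, one_mul] at h3

lemma mem_scale {𝔟 : Ideal (𝓞 K)} {c : 𝓞 K} (hc : c ≠ 0) (x : 𝓞 K) :
    c * x ∈ Ideal.span {c} * 𝔟 ↔ x ∈ 𝔟 := by
  rw [Ideal.mem_span_singleton_mul]
  constructor
  · rintro ⟨z, hz, h⟩
    rwa [← mul_left_cancel₀ hc h]
  · intro h
    exact ⟨x, h, rfl⟩

/-- scaling -/
lemma th_scale {𝔟 : Ideal (𝓞 K)} {c : ℕ} (hc : 0 < c) (y : InfinitePlace K → ℝ) :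
    th (fun _ => 0) (ind (Ideal.span {(c : 𝓞 K)} * 𝔟)) y =
      th (fun _ => 0) (ind 𝔟) (fun w => y w + 2 * Real.log c) := by
  have hc0 : (c : 𝓞 K) ≠ 0 := by exact_mod_cast hc.ne'
  have hc1 : (0 : ℝ) < c := by exact_mod_cast hc
  unfold th
  rw [← (mul_right_injective₀ hc0).tsum_eq]
  · refine tsum_congr fun x => ?_
    have h1 : ind (Ideal.span {(c : 𝓞 K)} * 𝔟) ((c : 𝓞 K) * x) = ind 𝔟 x := by
      by_cases hx : x ∈ 𝔟
      · rw [ind_mem hx, ind_mem ((mem_scale hc0 x).mpr hx)]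
      · rw [ind_notMem hx, ind_notMem (fun h => hx ((mem_scale hc0 x).mp h))]
    rw [h1]
    congr 4
    funext w
    have h2 : rl w (((c : 𝓞 K) * x : 𝓞 K) : K) = c * rl w (x : K) := by
      have h3 : (((c : 𝓞 K) * x : 𝓞 K) : K) = (c : K) * (x : K) := by
        refine (map_mul (algebraMap (𝓞 K) K) _ _).trans ?_
        rw [map_natCast]
      rw [h3, map_mul, map_natCast]
    rw [h2, add_div, Real.exp_add, mul_div_cancel_left₀ _ (two_ne_zero), Real.exp_log hc1]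
    ring
  · intro x hx
    rw [Function.mem_support] at hx
    have h1 : x ∈ Ideal.span {(c : 𝓞 K)} * 𝔟 := by
      by_contra h
      exact hx (by rw [ind_notMem h, zero_mul])
    rw [Ideal.mem_span_singleton_mul] at h1
    obtain ⟨z, _, hz⟩ := h1
    exact ⟨z, hz⟩

lemma hf_scale {𝔟 : Ideal (𝓞 K)} {c : ℕ} (hc : 0 < c) {s : ℝ} (hs : 0 < s) :
    hf (fun _ => 0) (ind (Ideal.span {(c : 𝓞 K)} * 𝔟)) s =
      hf (fun _ => 0) (ind 𝔟) ((c : ℝ) ^ (Module.finrank ℚ K) * s) := by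
  have hn : (0 : ℝ) < Module.finrank ℚ K := by exact_mod_cast Module.finrank_pos
  have hc1 : (0 : ℝ) < c := by exact_mod_cast hc
  unfold hf
  congr 1
  funext θ
  rw [th_scale hc]
  congr 1
  funext w
  have h1 : 2 / (Module.finrank ℚ K : ℝ) * Real.log ((c : ℝ) ^ (Module.finrank ℚ K) * s) =
      2 / (Module.finrank ℚ K : ℝ) * Real.log s + 2 * Real.log c := by
    rw [Real.log_mul (by positivity) hs.ne', Real.log_pow]
    field_simp
    ring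
  rw [h1]
  simp only [el, LinearMap.coe_mk, AddHom.coe_mk]
  ring

lemma hf_const_mul (e : InfinitePlace K → ℕ) (a : ℂ) (Ψ : 𝓞 K → ℂ) (t : ℝ) :
    hf e (fun x => a * Ψ x) t = a * hf e Ψ t := by
  unfold hf
  rw [← integral_const_mul]
  congr 1
  funext θ
  unfold th
  rw [← tsum_mul_left]
  refine tsum_congr fun x => ?_
  ring

/-- the theta series is real and at least one -/
lemma th_real (𝔟 : Ideal (𝓞 K)) (y : InfinitePlace K → ℝ) :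
    ∃ r : ℝ, 1 ≤ r ∧ th (fun _ => 0) (ind 𝔟) y = (r : ℂ) := by
  classical
  have ha : ∀ w : InfinitePlace K, 0 < Real.exp (y w / 2) := fun w => Real.exp_pos _
  have hsum := summable_th (e := fun _ => 0) (fun _ => zero_le_one) (norm_ind_le 𝔟) ha
  have h1 : ∀ x : 𝓞 K, ind 𝔟 x * ((G0 (fun _ => 0) (fun w => Real.exp (y w / 2) * rl w (x : K)) : ℝ) :
      ℂ) = (((if x ∈ 𝔟 then (1 : ℝ) else 0) *
        G0 (fun _ => 0) (fun w => Real.exp (y w / 2) * rl w (x : K)) : ℝ) : ℂ) := by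
    intro x
    by_cases hx : x ∈ 𝔟
    · rw [ind_mem hx, if_pos hx, one_mul, one_mul]
    · rw [ind_notMem hx, if_neg hx, zero_mul, zero_mul, Complex.ofReal_zero]
  have hG : ∀ u : InfinitePlace K → ℝ, 0 ≤ G0 (fun _ => 0) u := by
    intro u
    unfold G0 g0
    exact Finset.prod_nonneg fun w _ => by positivity
  refine ⟨∑' x : 𝓞 K, (if x ∈ 𝔟 then (1 : ℝ) else 0) *
    G0 (fun _ => 0) (fun w => Real.exp (y w / 2) * rl w (x : K)), ?_, ?_⟩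
  · have hs2 : Summable fun x : 𝓞 K => (if x ∈ 𝔟 then (1 : ℝ) else 0) *
        G0 (fun _ => 0) (fun w => Real.exp (y w / 2) * rl w (x : K)) := by
      rw [← Complex.summable_ofReal]
      exact hsum.congr h1
    refine le_trans (le_of_eq ?_) (hs2.le_tsum 0 fun x _ => ?_)
    · rw [if_pos 𝔟.zero_mem, one_mul]
      unfold G0 g0
      symm
      refine Finset.prod_eq_one fun w _ => ?_
      have : rl w ((0 : 𝓞 K) : K) = 0 := by
        rw [show ((0 : 𝓞 K) : K) = 0 from map_zero (algebraMap (𝓞 K) K), map_zero]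
      beta_reduce
      rw [this, mul_zero, pow_zero, zero_pow two_ne_zero, mul_zero, Real.exp_zero, mul_one]
    · exact mul_nonneg (by split_ifs <;> norm_num) (hG _)
  · unfold th
    rw [Complex.ofReal_tsum]
    exact tsum_congr h1

lemma hf_ne_zero (𝔟 : Ideal (𝓞 K)) (t : ℝ) : hf (fun _ => 0) (ind 𝔟) t ≠ 0 := by
  choose r hr1 hr using th_real (K := K) 𝔟
  have hcont : Continuous r := by
    have h1 := continuous_th (e := fun _ : InfinitePlace K => 0) (fun _ => zero_le_one)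
      (norm_ind_le 𝔟)
    have h2 : r = fun y => (th (fun _ => 0) (ind 𝔟) y).re := by
      funext y
      rw [hr y, Complex.ofReal_re]
    rw [h2]
    exact Complex.continuous_re.comp h1
  rw [hf_eq]
  simp_rw [hr]
  rw [integral_complex_ofReal]
  have h3 : (1 : ℝ) ≤ ∫ θ in Icc (0 : Fin (rank K) → ℝ) 1,
      r (el K ((2 / Module.finrank ℚ K) * Real.log t, θ)) := by
    have h4 : ∫ _ in Icc (0 : Fin (rank K) → ℝ) 1, (1 : ℝ) = 1 := by
      rw [setIntegral_const, Measure.real, volume_cube]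
      simp
    rw [← h4]
    refine setIntegral_mono_on ?_ ?_ measurableSet_Icc fun θ _ => hr1 _
    · exact (continuousOn_const).integrableOn_compact isCompact_Icc
    · refine ContinuousOn.integrableOn_compact isCompact_Icc (Continuous.continuousOn ?_)
      exact hcont.comp (((el K).continuous_of_finiteDimensional).comp (by fun_prop))
  intro h5
  have h6 : (∫ θ in Icc (0 : Fin (rank K) → ℝ) 1,
      r (el K ((2 / Module.finrank ℚ K) * Real.log t, θ))) = 0 := by exact_mod_cast h5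
  linarith

/-- the formula with an unknown constant -/
lemma feb_V : ∃ V : ℝ, 0 < V ∧ ∀ (𝔟 𝔟' : Ideal (𝓞 K)) (k : ℕ), 0 < k →
    𝔟' * (𝔟 * differentIdeal ℤ (𝓞 K)) = Ideal.span {(k : 𝓞 K)} → ∀ X : ℝ, 0 < X →
      hf (fun _ => 0) (ind 𝔟) (1 / ((Ideal.absNorm 𝔟 : ℝ) * X)) =
        ((V⁻¹ * X : ℝ) : ℂ) *
          hf (fun _ => 0) (ind 𝔟') (X / ((Ideal.absNorm 𝔟' : ℝ) * |(discr K : ℝ)|)) := by
  obtain ⟨V, hV0, hV⟩ := hf_fe K
  refine ⟨V, hV0, fun 𝔟 𝔟' k hk hid X hX => ?_⟩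
  have h𝔡 : differentIdeal ℤ (𝓞 K) ≠ ⊥ := differentIdeal_ne_bot
  have hkne : Ideal.span {(k : 𝓞 K)} ≠ ⊥ := span_m_ne_bot hk
  have h𝔟 : 𝔟 ≠ ⊥ := by
    rintro rfl
    rw [Ideal.bot_mul, Ideal.mul_bot] at hid
    exact hkne hid.symm
  have h𝔟' : 𝔟' ≠ ⊥ := by
    rintro rfl
    rw [Ideal.bot_mul] at hid
    exact hkne hid.symm
  have h𝔟𝔡 : 𝔟 * differentIdeal ℤ (𝓞 K) ≠ ⊥ := mul_ne_zero h𝔟 h𝔡
  obtain ⟨m, hm⟩ : ∃ m, m = Ideal.absNorm 𝔟 := ⟨_, rfl⟩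
  obtain ⟨D, hD⟩ : ∃ D, D = Ideal.absNorm (differentIdeal ℤ (𝓞 K)) := ⟨_, rfl⟩
  have hm0 : 0 < m := by
    rw [hm]
    exact Nat.pos_of_ne_zero fun h1 => h𝔟 (Ideal.absNorm_eq_zero_iff.mp h1)
  have hD0 : 0 < D := by
    rw [hD]
    exact Nat.pos_of_ne_zero fun h1 => h𝔡 (Ideal.absNorm_eq_zero_iff.mp h1)
  have hm𝔟 : (m : 𝓞 K) ∈ 𝔟 := by rw [hm]; exact Ideal.absNorm_mem _
  have hD𝔡 : (D : 𝓞 K) ∈ differentIdeal ℤ (𝓞 K) := by rw [hD]; exact Ideal.absNorm_mem _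
  have hmD : ((m * D : ℕ) : 𝓞 K) ∈ 𝔟 * differentIdeal ℤ (𝓞 K) := by
    push_cast
    exact Ideal.mul_mem_mul hm𝔟 hD𝔡
  obtain ⟨𝔟'', h𝔟''⟩ := mem_iff_exists_mul.mp hmD
  -- the relation between the two ideals
  have hrel : Ideal.span {(k : 𝓞 K)} * 𝔟'' = Ideal.span {((m * D : ℕ) : 𝓞 K)} * 𝔟' := by
    have h1 : (Ideal.span {(k : 𝓞 K)} * 𝔟'') * (𝔟 * differentIdeal ℤ (𝓞 K)) =
        (Ideal.span {((m * D : ℕ) : 𝓞 K)} * 𝔟') * (𝔟 * differentIdeal ℤ (𝓞 K)) := by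
      rw [mul_assoc, mul_assoc, h𝔟'', hid, mul_comm]
    exact mul_right_cancel₀ h𝔟𝔡 h1
  -- norms
  have hmR : (0 : ℝ) < m := by exact_mod_cast hm0
  have hDR : (0 : ℝ) < D := by exact_mod_cast hD0
  have hkR : (0 : ℝ) < k := by exact_mod_cast hk
  have hDd : (D : ℝ) = |(discr K : ℝ)| := by
    rw [hD, absNorm_differentIdeal K (𝓞 K), Nat.cast_natAbs, Int.cast_abs]
  have hN' : (0 : ℝ) < (Ideal.absNorm 𝔟' : ℝ) := by
    exact_mod_cast Nat.pos_of_ne_zero fun h1 => h𝔟' (Ideal.absNorm_eq_zero_iff.mp h1)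
  have hnorm : (Ideal.absNorm 𝔟' : ℝ) * (m * D) = (k : ℝ) ^ (Module.finrank ℚ K) := by
    have h1 := congrArg Ideal.absNorm hid
    rw [map_mul, map_mul, absNorm_span_nat, ← hm, ← hD] at h1
    exact_mod_cast h1
  have hper : ∀ x z : 𝓞 K, ind 𝔟 (x + m * z) = ind 𝔟 x := by
    intro x z
    refine ind_per _ _ ?_
    rw [add_sub_cancel_left]
    exact 𝔟.mul_mem_right _ hm𝔟
  have h1 := hV (fun _ => 0) (fun _ => zero_le_one) (ind 𝔟) 1 (norm_ind_le 𝔟) (eqv_ind 𝔟) m D hm0 hD0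
    hD𝔡 hper (m * X) (by positivity)
  rw [← hm, h1]
  have h2 : FT D m (ind 𝔟) = fun x => ((m : ℂ) ^ (Module.finrank ℚ K) / (Ideal.absNorm 𝔟 : ℂ)) *
      ind 𝔟'' x := by
    funext x
    exact ft_ind hm0 hD0 h𝔟'' hm𝔟 x
  rw [h2, hf_const_mul]
  obtain ⟨n, hn⟩ : ∃ n, n = Module.finrank ℚ K := ⟨_, rfl⟩
  rw [← hn] at hnorm
  have h3 : hf (fun _ => 0) (ind 𝔟'') ((m * X) / ((m * D : ℕ) : ℝ) ^ n) =
      hf (fun _ => 0) (ind 𝔟') (X / ((Ideal.absNorm 𝔟' : ℝ) * |(discr K : ℝ)|)) := by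
    obtain ⟨s, hs⟩ : ∃ s : ℝ, s = (m * X) / ((m * D : ℕ) : ℝ) ^ n / (k : ℝ) ^ n := ⟨_, rfl⟩
    have hs0 : 0 < s := by
      rw [hs]
      push_cast
      positivity
    have e1 : (m * X) / ((m * D : ℕ) : ℝ) ^ n = (k : ℝ) ^ (Module.finrank ℚ K) * s := by
      rw [hs, ← hn]
      field_simp
    have e2 : X / ((Ideal.absNorm 𝔟' : ℝ) * |(discr K : ℝ)|) =
        ((m * D : ℕ) : ℝ) ^ (Module.finrank ℚ K) * s := by
      rw [hs, ← hn, ← hDd, ← hnorm]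
      push_cast
      field_simp
    rw [e1, e2, ← hf_scale hk hs0, ← hf_scale (Nat.mul_pos hm0 hD0) hs0, hrel]
  rw [← hn, h3, ← hm]
  have hmC : (m : ℂ) ≠ 0 := by exact_mod_cast hm0.ne'
  push_cast
  simp only [Finset.sum_const_zero, pow_zero, mul_one]
  field_simp

theorem feb (𝔟 𝔟' : Ideal (𝓞 K)) (k : ℕ) (hk : 0 < k)
    (hid : 𝔟' * (𝔟 * differentIdeal ℤ (𝓞 K)) = Ideal.span {(k : 𝓞 K)}) (X : ℝ) (hX : 0 < X) :
    hf (fun _ => 0) (ind 𝔟) (1 / ((Ideal.absNorm 𝔟 : ℝ) * X)) =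
      (((Real.sqrt |(discr K : ℝ)|)⁻¹ * X : ℝ) : ℂ) *
        hf (fun _ => 0) (ind 𝔟') (X / ((Ideal.absNorm 𝔟' : ℝ) * |(discr K : ℝ)|)) := by
  obtain ⟨V, hV0, hV⟩ := feb_V (K := K)
  have hd : (0 : ℝ) < |(discr K : ℝ)| := abs_pos.mpr (by exact_mod_cast discr_ne_zero K)
  have hid' : 𝔟 * (𝔟' * differentIdeal ℤ (𝓞 K)) = Ideal.span {(k : 𝓞 K)} := by
    rw [← hid]
    ring
  have hkne : Ideal.span {(k : 𝓞 K)} ≠ ⊥ := span_m_ne_bot hk
  have h𝔟 : 𝔟 ≠ ⊥ := by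
    rintro rfl
    rw [Ideal.bot_mul] at hid'
    exact hkne hid'.symm
  have h𝔟' : 𝔟' ≠ ⊥ := by
    rintro rfl
    rw [Ideal.bot_mul] at hid
    exact hkne hid.symm
  have hN : (0 : ℝ) < (Ideal.absNorm 𝔟 : ℝ) := by
    exact_mod_cast Nat.pos_of_ne_zero fun h1 => h𝔟 (Ideal.absNorm_eq_zero_iff.mp h1)
  have hN' : (0 : ℝ) < (Ideal.absNorm 𝔟' : ℝ) := by
    exact_mod_cast Nat.pos_of_ne_zero fun h1 => h𝔟' (Ideal.absNorm_eq_zero_iff.mp h1)
  have h1 := hV 𝔟 𝔟' k hk hid X hX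
  have h2 := hV 𝔟' 𝔟 k hk hid' (|(discr K : ℝ)| / X) (by positivity)
  have e1 : 1 / ((Ideal.absNorm 𝔟' : ℝ) * (|(discr K : ℝ)| / X)) =
      X / ((Ideal.absNorm 𝔟' : ℝ) * |(discr K : ℝ)|) := by field_simp
  have e2 : |(discr K : ℝ)| / X / ((Ideal.absNorm 𝔟 : ℝ) * |(discr K : ℝ)|) =
      1 / ((Ideal.absNorm 𝔟 : ℝ) * X) := by field_simp
  rw [e1, e2] at h2
  rw [h2] at h1
  have h3 := hf_ne_zero 𝔟 (1 / ((Ideal.absNorm 𝔟 : ℝ) * X))
  have h4 : ((V⁻¹ * X : ℝ) : ℂ) * ((V⁻¹ * (|(discr K : ℝ)| / X) : ℝ) : ℂ) = 1 := by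
    rw [← mul_assoc] at h1
    exact mul_right_cancel₀ h3 (by rw [one_mul]; exact h1.symm)
  have h5 : V⁻¹ * X * (V⁻¹ * (|(discr K : ℝ)| / X)) = 1 := by exact_mod_cast h4
  have h6 : V ^ 2 = |(discr K : ℝ)| := by
    field_simp at h5
    linarith
  have h7 : Real.sqrt |(discr K : ℝ)| = V := by
    rw [← h6, Real.sqrt_sq hV0.le]
  rw [h7]
  exact hV 𝔟 𝔟' k hk hid X hX

theorem t_FEB : Pool.Agent.J4H78.GP.S_FEB := by
  intro L _ _ _ 𝔟 𝔟' k hk hid X hX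
  exact feb 𝔟 𝔟' k hk hid X hX

end Pool.Agent.J4H14.GP
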