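import Pool.Agent.J4H78.GP.Stm
import Pool.Agent.Y773.HK.Gss2

/-!
# Project GP, part FTB: the finite Fourier transform of the indicator function of an ideal
-/

set_option autoImplicit false
set_option linter.unusedSectionVars false

open NumberField Complex Filter Topology Set
open Pool.Agent.Y773

namespace Pool.Agent.J4H14.GP

open Pool.Agent.J4H78.GP (ind)

variable {K : Type} [Field K] [NumberField K]

lemma ind_mem {𝔟 : Ideal (𝓞 K)} {x : 𝓞 K} (h : x ∈ 𝔟) : ind 𝔟 x = 1 := if_pos h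

lemma ind_notMem {𝔟 : Ideal (𝓞 K)} {x : 𝓞 K} (h : x ∉ 𝔟) : ind 𝔟 x = 0 := if_neg h

lemma ind_per {𝔟 : Ideal (𝓞 K)} : PerI 𝔟 (ind 𝔟) := by
  intro x y hxy
  by_cases hy : y ∈ 𝔟
  · rw [ind_mem hy, ind_mem]
    have : x = (x - y) + y := by ring
    rw [this]
    exact 𝔟.add_mem hxy hy
  · rw [ind_notMem hy, ind_notMem]
    intro hx
    apply hy
    have : y = x - (x - y) := by ring
    rw [this]
    exact 𝔟.sub_mem hx hxy

/-- the sum over the residue classes of `𝔟` of the indicator function of `𝔟` -/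
lemma SQ_ind {𝔟 : Ideal (𝓞 K)} (h : 𝔟 ≠ ⊥) : SQ 𝔟 (ind 𝔟) = 1 := by
  classical
  have : Finite (𝓞 K ⧸ 𝔟) := Ideal.finiteQuotientOfFreeOfNeBot _ h
  have := Fintype.ofFinite (𝓞 K ⧸ 𝔟)
  unfold SQ
  rw [finsum_eq_sum_of_fintype, Finset.sum_eq_single (0 : 𝓞 K ⧸ 𝔟)]
  · apply ind_mem
    have h1 := mk_out (0 : 𝓞 K ⧸ 𝔟)
    exact Ideal.Quotient.eq_zero_iff_mem.mp h1
  · intro r _ hr
    apply ind_notMem
    intro hm
    apply hr
    rw [← mk_out r]
    exact Ideal.Quotient.eq_zero_iff_mem.mpr hm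
  · intro hn
    exact absurd (Finset.mem_univ _) hn

theorem ft_ind [IsTotallyReal K] {𝔟 𝔟' : Ideal (𝓞 K)} {m D : ℕ} (hm : 0 < m) (hD : 0 < D)
    (hid : 𝔟' * (𝔟 * differentIdeal ℤ (𝓞 K)) = Ideal.span {((m * D : ℕ) : 𝓞 K)})
    (hm𝔟 : (m : 𝓞 K) ∈ 𝔟) (x : 𝓞 K) :
    FT D m (ind 𝔟) x = ((m : ℂ) ^ (Module.finrank ℚ K) / (Ideal.absNorm 𝔟 : ℂ)) * ind 𝔟' x := by
  have h𝔡 : differentIdeal ℤ (𝓞 K) ≠ ⊥ := differentIdeal_ne_bot
  set k : ℕ := m * D with hk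
  have hk0 : 0 < k := Nat.mul_pos hm hD
  have hkne : Ideal.span {(k : 𝓞 K)} ≠ ⊥ := span_m_ne_bot hk0
  have h𝔟 : 𝔟 ≠ ⊥ := by
    rintro rfl
    rw [Ideal.bot_mul, Ideal.mul_bot] at hid
    exact hkne hid.symm
  have hmne : Ideal.span {(m : 𝓞 K)} ≠ ⊥ := span_m_ne_bot hm
  have hmle : Ideal.span {(m : 𝓞 K)} ≤ 𝔟 := (Ideal.span_singleton_le_iff_mem _).mpr hm𝔟
  have hNb : (Ideal.absNorm 𝔟 : ℂ) ≠ 0 := by
    exact_mod_cast (fun h1 => h𝔟 (Ideal.absNorm_eq_zero_iff.mp h1))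
  by_cases hx : x ∈ 𝔟'
  swap
  · rw [ind_notMem hx, mul_zero]
    by_cases hcond : ∀ r : 𝓞 K, (D : ℤ) ∣ Algebra.trace ℤ (𝓞 K) (x * r)
    swap
    · unfold FT
      rw [if_neg hcond]
    rw [FT_eq_SQ hcond]
    have hexz : ∃ z ∈ 𝔟, ¬ ((k : ℤ) ∣ Algebra.trace ℤ (𝓞 K) (x * z)) := by
      by_contra hcon
      push Not at hcon
      apply hx
      have h1 : Ideal.span {x} * (𝔟 * differentIdeal ℤ (𝓞 K)) ≤
          𝔟' * (𝔟 * differentIdeal ℤ (𝓞 K)) := by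
        rw [hid, ← mul_assoc, Ideal.mul_le]
        intro w hw δ hδ
        obtain ⟨z, hz, rfl⟩ := Ideal.mem_span_singleton_mul.mp hw
        refine trace_dvd_conv hk0 (fun o => ?_) hδ
        rw [mul_assoc]
        exact hcon _ (Ideal.mul_mem_right _ _ hz)
      have h2 : 𝔟' ∣ Ideal.span {x} := by
        have h3 := Ideal.dvd_iff_le.mpr h1
        exact (mul_dvd_mul_iff_right (mul_ne_zero h𝔟 h𝔡)).mp h3
      exact (Ideal.dvd_span_singleton).mp h2
    obtain ⟨z, hz, hz2⟩ := hexz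
    have hPer : PerI (Ideal.span {(m : 𝓞 K)}) (fun r => ind 𝔟 r * ee k (x * r)) := by
      intro r r' hrr
      have e1 := ind_per r r' (hmle hrr)
      have e2 : ee k (x * r) = ee k (x * r') := by
        refine ee_sub_eq hk0 ?_
        obtain ⟨t, ht⟩ := Ideal.mem_span_singleton'.mp hrr
        have e3 : x * r - x * r' = (m : ℤ) • (x * t) := by
          rw [← mul_sub, ← ht, zsmul_eq_mul]
          push_cast
          ring
        rw [e3, map_smul, hk]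
        push_cast
        rw [smul_eq_mul]
        exact mul_dvd_mul_left _ (hcond t)
      simp only [e1, e2]
    have hS := SQ_translate hPer z
    have hne1 : ee k (x * z) ≠ 1 := fun h1 => hz2 ((ee_eq_one_iff hk0 _).mp h1)
    have e4 : SQ (Ideal.span {(m : 𝓞 K)}) (fun r => ind 𝔟 (r + z) * ee k (x * (r + z))) =
        ee k (x * z) * SQ (Ideal.span {(m : 𝓞 K)}) (fun r => ind 𝔟 r * ee k (x * r)) := by
      rw [← SQ_const_mul hmne]
      refine SQ_congr fun r => ?_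
      have e5 : ind 𝔟 (r + z) = ind 𝔟 r := ind_per _ _ (by rwa [add_sub_cancel_left])
      rw [e5, mul_add, ee_add]
      ring
    have e6 : (1 - ee k (x * z)) *
        SQ (Ideal.span {(m : 𝓞 K)}) (fun r => ind 𝔟 r * ee k (x * r)) = 0 := by
      have := e4.symm.trans hS
      linear_combination -this
    rcases mul_eq_zero.mp e6 with h7 | h7
    · exact absurd (sub_eq_zero.mp h7).symm hne1
    · exact h7
  -- `x ∈ 𝔟'`
  rw [ind_mem hx, mul_one]
  have htr : ∀ z ∈ 𝔟, (k : ℤ) ∣ Algebra.trace ℤ (𝓞 K) (x * z) := by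
    intro z hz
    refine trace_dvd fun δ hδ => ?_
    have e0 : x * z * δ = x * (z * δ) := mul_assoc _ _ _
    rw [← hid, e0]
    exact Ideal.mul_mem_mul hx (Ideal.mul_mem_mul hz hδ)
  have hcond : ∀ r : 𝓞 K, (D : ℤ) ∣ Algebra.trace ℤ (𝓞 K) (x * r) := by
    intro r
    have h1 := htr (m * r) (Ideal.mul_mem_right _ _ hm𝔟)
    have e3 : x * (m * r) = (m : ℤ) • (x * r) := by
      rw [zsmul_eq_mul]
      push_cast
      ring
    rw [e3, map_smul, hk, smul_eq_mul] at h1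
    push_cast at h1
    exact (mul_dvd_mul_iff_left (by exact_mod_cast hm.ne')).mp h1
  rw [FT_eq_SQ hcond]
  have e1 : SQ (Ideal.span {(m : 𝓞 K)}) (fun r => ind 𝔟 r * ee (m * D) (x * r)) =
      SQ (Ideal.span {(m : 𝓞 K)}) (ind 𝔟) := by
    refine SQ_congr fun r => ?_
    by_cases hr : r ∈ 𝔟
    · rw [(ee_eq_one_iff hk0 _).mpr (htr r hr), mul_one]
    · rw [ind_notMem hr, zero_mul]
  rw [e1]
  have h1 := SQ_mono hmne hmle (ind_per (𝔟 := 𝔟))
  rw [SQ_ind h𝔟, mul_one, absNorm_span_nat] at h1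
  push_cast at h1
  rw [eq_div_iff hNb, ← h1, mul_comm]

theorem t_FTB : Pool.Agent.J4H78.GP.S_FTB := by
  intro L _ _ _ 𝔟 𝔟' m D hm hD hid hm𝔟 _ x
  exact ft_ind hm hD hid hm𝔟 x

end Pool.Agent.J4H14.GP
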