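import Pool.Agent.J4H78.GP.Stm

/-!
# Project GP, part MULT: the coefficients of the Rankin-Selberg convolution
-/

set_option autoImplicit false
set_option linter.unusedSectionVars false

open NumberField
open Pool.Agent.Y773 (cc)
open Pool.Agent.J4H78.GP

namespace Pool.Agent.J4H14.GP

/-- the norm of the kernel of a homomorphism to a finite field -/
lemma ker_norm {F : Type} [Field F] [NumberField F] {q r : ℕ} [hq : Fact q.Prime] (hr : 1 ≤ r)
    (φ : 𝓞 F →+* GaloisField q r) :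
    (RingHom.ker φ).IsMaximal ∧ ∃ f : ℕ, 1 ≤ f ∧ Ideal.absNorm (RingHom.ker φ) = q ^ f ∧ f ∣ r := by
  classical
  have hne : RingHom.ker φ ≠ ⊥ := by
    intro h
    have h1 : ((q : ℕ) : 𝓞 F) ∈ RingHom.ker φ := by
      rw [RingHom.mem_ker, map_natCast, CharP.cast_eq_zero]
    rw [h, Ideal.mem_bot] at h1
    exact hq.out.ne_zero (by exact_mod_cast h1)
  have hprime : (RingHom.ker φ).IsPrime := RingHom.ker_isPrime φ
  have hmax : (RingHom.ker φ).IsMaximal := hprime.isMaximal hne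
  refine ⟨hmax, ?_⟩
  let : Field (𝓞 F ⧸ RingHom.ker φ) := Ideal.Quotient.field _
  have : Finite (𝓞 F ⧸ RingHom.ker φ) := Ideal.finiteQuotientOfFreeOfNeBot _ hne
  let := Fintype.ofFinite (𝓞 F ⧸ RingHom.ker φ)
  let g : (𝓞 F ⧸ RingHom.ker φ) →+* GaloisField q r := RingHom.kerLift φ
  have hg : Function.Injective g := RingHom.kerLift_injective φ
  let : Algebra (𝓞 F ⧸ RingHom.ker φ) (GaloisField q r) := g.toAlgebra
  have : CharP (𝓞 F ⧸ RingHom.ker φ) q := RingHom.charP g hg q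
  have : Finite (GaloisField q r) := by
    apply Nat.finite_of_card_ne_zero
    rw [GaloisField.card q r (by omega)]
    exact pow_ne_zero _ hq.out.ne_zero
  have : Module.Finite (𝓞 F ⧸ RingHom.ker φ) (GaloisField q r) := Module.Finite.of_finite
  have h1 := Module.natCard_eq_pow_finrank (K := 𝓞 F ⧸ RingHom.ker φ) (V := GaloisField q r)
  rw [GaloisField.card q r (by omega)] at h1
  obtain ⟨n, _, hn⟩ := FiniteField.card (𝓞 F ⧸ RingHom.ker φ) q
  have h2 : Nat.card (𝓞 F ⧸ RingHom.ker φ) = q ^ (n : ℕ) := by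
    rw [Nat.card_eq_fintype_card, hn]
  refine ⟨n, n.2, ?_, ?_⟩
  · rw [Ideal.absNorm_apply, Submodule.cardQuot_apply, h2]
  · rw [h2, ← pow_mul] at h1
    exact ⟨_, Nat.pow_right_injective hq.out.two_le h1⟩

/-- the value at the norm of the kernel -/
lemma relNorm_ker {K L : Type} [Field K] [NumberField K] [Field L] [NumberField L] [Algebra K L]
    {q r : ℕ} [hq : Fact q.Prime] (hr : 1 ≤ r) (ψ : Ideal (𝓞 K) →*₀ ℂ)
    (φ : 𝓞 L →+* GaloisField q r) :
    ψ (Ideal.relNorm (𝓞 K) (RingHom.ker φ)) ^ (r / Nat.log q (Ideal.absNorm (RingHom.ker φ))) =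
      ψ (RingHom.ker (φ.comp (algebraMap (𝓞 K) (𝓞 L)))) ^
        (r / Nat.log q (Ideal.absNorm (RingHom.ker (φ.comp (algebraMap (𝓞 K) (𝓞 L)))))) := by
  obtain ⟨hmax, f, hf1, hf, hfr⟩ := ker_norm hr φ
  obtain ⟨hmax', f', hf1', hf', hfr'⟩ := ker_norm hr (φ.comp (algebraMap (𝓞 K) (𝓞 L)))
  have := hmax
  have := hmax'
  have : (RingHom.ker φ).LiesOver (RingHom.ker (φ.comp (algebraMap (𝓞 K) (𝓞 L)))) :=
    ⟨(RingHom.comap_ker φ (algebraMap (𝓞 K) (𝓞 L))).symm⟩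
  obtain ⟨s, hs⟩ := Ideal.exists_relNorm_eq_pow_of_isPrime (RingHom.ker φ)
    (RingHom.ker (φ.comp (algebraMap (𝓞 K) (𝓞 L))))
  have h1 := Ideal.absNorm_relNorm (R := 𝓞 K) (I := RingHom.ker φ)
  rw [hs, map_pow, hf, hf', ← pow_mul] at h1
  have h2 : f' * s = f := Nat.pow_right_injective hq.out.two_le h1
  rw [hs, hf, hf', Nat.log_pow hq.out.one_lt, Nat.log_pow hq.out.one_lt, map_pow, ← pow_mul]
  congr 1
  obtain ⟨t, ht⟩ := hfr
  rw [← h2] at ht ⊢
  have hs0 : 0 < s := by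
    rcases Nat.eq_zero_or_pos s with h0 | h0
    · rw [h0, mul_zero] at h2
      omega
    · exact h0
  have hf0 : 0 < f' := by omega
  rw [ht, Nat.mul_div_cancel_left _ (Nat.mul_pos hf0 hs0), mul_assoc, Nat.mul_div_cancel_left _ hf0]

theorem t_MULT (hloc : S_LOC) (hhom : S_HOM) : S_MULT := by
  classical
  intro p p' K K' L _ _ _ _ _ _ _ _ hB ψ ψ' q r hq hr hqp
  have : Fact q.Prime := ⟨hq⟩
  have hbij := hhom p p' K K' L hB q r hr hqp
  obtain ⟨_, h1⟩ := hloc L (eta (L := L) ψ ψ') q r hr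
  obtain ⟨hf2, h2⟩ := hloc K ψ q r hr
  obtain ⟨hf3, h3⟩ := hloc K' ψ' q r hr
  rw [h1, h2, h3]
  let := Fintype.ofFinite (𝓞 K →+* GaloisField q r)
  let := Fintype.ofFinite (𝓞 K' →+* GaloisField q r)
  rw [finsum_eq_of_bijective (g := fun ab : (𝓞 K →+* GaloisField q r) × (𝓞 K' →+* GaloisField q r) =>
    ψ (RingHom.ker ab.1) ^ (r / Nat.log q (Ideal.absNorm (RingHom.ker ab.1))) *
      ψ' (RingHom.ker ab.2) ^ (r / Nat.log q (Ideal.absNorm (RingHom.ker ab.2)))) _ hbij ?_]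
  · rw [finsum_eq_sum_of_fintype, finsum_eq_sum_of_fintype, finsum_eq_sum_of_fintype,
      Fintype.sum_prod_type, Finset.sum_mul_sum]
  · intro φ
    rw [← relNorm_ker hr ψ φ, ← relNorm_ker hr ψ' φ, ← mul_pow]
    rfl

end Pool.Agent.J4H14.GP
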